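import Pool.Agent.Helper85.RL.Stmts
import Pool.Agent.Helper16.HR.Base

/-! PACK: a maximal edge-disjoint family of copies. -/

set_option autoImplicit false
set_option linter.unusedSectionVars false

namespace Pool.Helper96.RL

open Finset Pool.Helper16.HR Pool.Helper85.RL

variable {I V : Type} [Fintype I] [DecidableEq I] [Fintype V]

theorem one_nonneg (P : (I → V) → Prop) (x : I → V) : 0 ≤ one P x := by
  unfold one
  split_ifs <;> norm_num

theorem one_le_one (P : (I → V) → Prop) (x : I → V) : one P x ≤ 1 := by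
  unfold one
  split_ifs <;> norm_num

theorem one_pos {α : Type} {P : α → Prop} {x : α} (h : P x) : one P x = 1 := by
  classical
  unfold one
  rw [if_pos h]

theorem one_neg {α : Type} {P : α → Prop} {x : α} (h : ¬ P x) : one P x = 0 := by
  classical
  unfold one
  rw [if_neg h]

/-- the density of a cylinder -/
theorem av_cyl [Nonempty V] (e : Finset I) (w : I → V) :
    av (one (fun x : I → V => ∀ i ∈ e, x i = w i)) = 1 / (Fintype.card V : ℝ) ^ e.card := by
  classical
  have hV : (0 : ℝ) < (Fintype.card V : ℝ) := by exact_mod_cast Fintype.card_pos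
  have h1 : ∑ x : I → V, one (fun x : I → V => ∀ i ∈ e, x i = w i) x =
      ((univ.filter (fun x : I → V => ∀ i ∈ e, x i = w i)).card : ℝ) := by
    rw [card_filter]
    push_cast
    refine sum_congr rfl fun x _ => ?_
    by_cases h : ∀ i ∈ e, x i = w i
    · rw [one_pos (P := fun x : I → V => ∀ i ∈ e, x i = w i) h, if_pos h]
    · rw [one_neg (P := fun x : I → V => ∀ i ∈ e, x i = w i) h, if_neg h]
  have h2 : univ.filter (fun x : I → V => ∀ i ∈ e, x i = w i) =
      Fintype.piFinset (fun i => if i ∈ e then {w i} else (univ : Finset V)) := by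
    ext x
    simp only [mem_filter, mem_univ, true_and, Fintype.mem_piFinset]
    constructor
    · intro h i
      by_cases hi : i ∈ e
      · rw [if_pos hi, mem_singleton]
        exact h i hi
      · rw [if_neg hi]
        exact mem_univ _
    · intro h i hi
      have := h i
      rwa [if_pos hi, mem_singleton] at this
  have h3 : (Fintype.piFinset (fun i => if i ∈ e then {w i} else (univ : Finset V))).card =
      ∏ i, (if i ∈ e then 1 else Fintype.card V) := by
    rw [Fintype.card_piFinset]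
    refine prod_congr rfl fun i _ => ?_
    by_cases hi : i ∈ e
    · rw [if_pos hi, if_pos hi, card_singleton]
    · rw [if_neg hi, if_neg hi, card_univ]
  have h4 : (∏ i, (if i ∈ e then 1 else Fintype.card V)) * Fintype.card V ^ e.card =
      Fintype.card (I → V) := by
    have h5 : Fintype.card V ^ e.card = ∏ i, (if i ∈ e then Fintype.card V else 1) := by
      rw [prod_ite_mem, univ_inter, prod_const]
    rw [h5, ← prod_mul_distrib, Fintype.card_pi]
    refine prod_congr rfl fun i _ => ?_
    by_cases hi : i ∈ e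
    · simp [hi]
    · simp [hi]
  unfold av
  rw [h1, h2, h3, ← h4]
  push_cast
  have h6 : (0 : ℝ) < ∏ i, (if i ∈ e then (1 : ℝ) else (Fintype.card V : ℝ)) :=
    prod_pos fun i _ => by split_ifs <;> [norm_num; exact hV]
  field_simp

/-- a disjoint union of cylinders -/
theorem av_cyls [Nonempty V] (e : Finset I) (W : Finset (I → V))
    (hW : ∀ w ∈ W, ∀ w' ∈ W, w ≠ w' → ∃ i ∈ e, w i ≠ w' i) :
    av (one (fun x : I → V => ∃ w ∈ W, ∀ i ∈ e, x i = w i)) =
      (W.card : ℝ) / (Fintype.card V : ℝ) ^ e.card := by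
  classical
  have h1 : ∀ x : I → V, one (fun x : I → V => ∃ w ∈ W, ∀ i ∈ e, x i = w i) x =
      ∑ w ∈ W, one (fun x : I → V => ∀ i ∈ e, x i = w i) x := by
    intro x
    by_cases h : ∃ w ∈ W, ∀ i ∈ e, x i = w i
    · obtain ⟨w, hw, hx⟩ := h
      rw [one_pos (P := fun x : I → V => ∃ w ∈ W, ∀ i ∈ e, x i = w i) ⟨w, hw, hx⟩,
        sum_eq_single w]
      · rw [one_pos (P := fun x : I → V => ∀ i ∈ e, x i = w i) hx]
      · intro w' hw' hne
        refine one_neg (P := fun x : I → V => ∀ i ∈ e, x i = w' i) fun hx' => ?_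
        obtain ⟨i, hi, hi'⟩ := hW w hw w' hw' (Ne.symm hne)
        exact hi' (by rw [← hx i hi, hx' i hi])
      · intro hn
        exact absurd hw hn
    · rw [one_neg (P := fun x : I → V => ∃ w ∈ W, ∀ i ∈ e, x i = w i) h]
      symm
      refine sum_eq_zero fun w hw => ?_
      exact one_neg (P := fun x : I → V => ∀ i ∈ e, x i = w i) fun hx => h ⟨w, hw, hx⟩
  rw [av_congr h1, av_sum, sum_congr rfl fun w _ => av_cyl e w, sum_const, nsmul_eq_mul]
  ring

theorem PACK : ST_PACK := by
  classical
  intro I V _ _ _ _ E k hE hk B hB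
  have hV : (0 : ℝ) < (Fintype.card V : ℝ) := by exact_mod_cast Fintype.card_pos
  -- a maximal family
  obtain ⟨W, hWm, hWmax⟩ := Finset.exists_max_image
    ((univ : Finset (Finset (I → V))).filter fun W => (∀ w ∈ W, ∀ e ∈ E, B e w) ∧
      ∀ w ∈ W, ∀ w' ∈ W, w ≠ w' → ∀ e ∈ E, ∃ i ∈ e, w i ≠ w' i) (fun W => W.card)
    ⟨∅, by simp⟩
  simp only [mem_filter, mem_univ, true_and] at hWm hWmax
  obtain ⟨hW1, hW2⟩ := hWm
  obtain ⟨B', hB'⟩ : ∃ B' : Finset I → (I → V) → Prop,
      B' = fun e x => ∃ w ∈ W, ∀ i ∈ e, x i = w i := ⟨_, rfl⟩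
  have hdis : ∀ e ∈ E, ∀ w ∈ W, ∀ w' ∈ W, w ≠ w' → ∃ i ∈ e, w i ≠ w' i :=
    fun e he w hw w' hw' hne => hW2 w hw w' hw' hne e he
  refine ⟨B', (W.card : ℝ) / (Fintype.card V : ℝ) ^ k, ?_, ?_, ?_, ?_, ?_⟩
  · intro e he x y hxy
    rw [hB']
    refine propext ⟨?_, ?_⟩
    · rintro ⟨w, hw, h⟩
      exact ⟨w, hw, fun i hi => by rw [← hxy i hi, h i hi]⟩
    · rintro ⟨w, hw, h⟩
      exact ⟨w, hw, fun i hi => by rw [hxy i hi, h i hi]⟩
  · intro e he x hx
    rw [hB'] at hx
    obtain ⟨w, hw, h⟩ := hx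
    rw [hB e he x w h]
    exact hW1 w hw e he
  · intro e he
    rw [hB', ← hk e he]
    exact av_cyls e W (hdis e he)
  · intro x hx
    obtain ⟨e0, he0⟩ := hE
    have hxW : ∀ e ∈ E, ∀ w ∈ W, ∃ i ∈ e, x i ≠ w i := by
      intro e he w hw
      by_contra hcon
      push Not at hcon
      refine (hx e he).2 ?_
      rw [hB']
      exact ⟨w, hw, hcon⟩
    have hxn : x ∉ W := by
      intro hxW'
      obtain ⟨i, -, hi⟩ := hxW e0 he0 x hxW'
      exact hi rfl
    have h1 := hWmax (insert x W) ⟨?_, ?_⟩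
    · rw [card_insert_of_notMem hxn] at h1
      omega
    · intro w hw e he
      rcases mem_insert.1 hw with rfl | hw
      · exact (hx e he).1
      · exact hW1 w hw e he
    · intro w hw w' hw' hne e he
      rcases mem_insert.1 hw with h2 | h2
      · rcases mem_insert.1 hw' with h3 | h3
        · exact absurd (h2.trans h3.symm) hne
        · rw [h2]
          exact hxW e he w' h3
      · rcases mem_insert.1 hw' with h3 | h3
        · obtain ⟨i, hi, hi'⟩ := hxW e he w h2
          rw [h3]
          exact ⟨i, hi, Ne.symm hi'⟩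
        · exact hW2 w h2 w' h3 hne e he
  · intro R hR hsum
    have h1 : ∀ e ∈ E, av (one (fun x => B' e x ∧ R e x)) =
        ((W.filter (fun w => R e w)).card : ℝ) / (Fintype.card V : ℝ) ^ k := by
      intro e he
      have h2 : (fun x => B' e x ∧ R e x) =
          fun x : I → V => ∃ w ∈ W.filter (fun w => R e w), ∀ i ∈ e, x i = w i := by
        funext x
        rw [hB']
        refine propext ⟨?_, ?_⟩
        · rintro ⟨⟨w, hw, h⟩, hr⟩
          refine ⟨w, mem_filter.2 ⟨hw, ?_⟩, h⟩
          rw [← hR e he x w h]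
          exact hr
        · rintro ⟨w, hw, h⟩
          obtain ⟨hw1, hw2⟩ := mem_filter.1 hw
          refine ⟨⟨w, hw1, h⟩, ?_⟩
          rw [hR e he x w h]
          exact hw2
      rw [h2, ← hk e he]
      refine av_cyls e _ fun w hw w' hw' hne => ?_
      exact hdis e he w (mem_filter.1 hw).1 w' (mem_filter.1 hw').1 hne
    rw [sum_congr rfl h1, ← sum_div, div_lt_div_iff_of_pos_right (pow_pos hV k)] at hsum
    have hsum2 : ∑ e ∈ E, (W.filter (fun w => R e w)).card < W.card := by exact_mod_cast hsum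
    by_contra hcon
    push Not at hcon
    have h3 : W ⊆ E.biUnion fun e => W.filter (fun w => R e w) := by
      intro w hw
      obtain ⟨e, he, h⟩ := hcon w
      refine mem_biUnion.2 ⟨e, he, mem_filter.2 ⟨hw, h ?_⟩⟩
      rw [hB']
      exact ⟨w, hw, fun _ _ => rfl⟩
    have h4 := (card_le_card h3).trans card_biUnion_le
    omega

end Pool.Helper96.RL
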