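import Pool.Agent.Helper85.RL.Stmts
import Pool.Agent.Helper16.HR.Base

/-! SEQ: the edges are inserted one after the other. -/

set_option autoImplicit false
set_option linter.unusedSectionVars false

namespace Pool.Helper96.RL

open Finset Pool.Helper16.HR Pool.Helper85.RL

theorem one_iff {α : Type} {P Q : α → Prop} (h : ∀ x, P x ↔ Q x) (x : α) : one P x = one Q x := by
  have h1 : P = Q := funext fun x => propext (h x)
  rw [h1]

theorem av_one_nonneg {I V : Type} [Fintype I] [DecidableEq I] [Fintype V] (P : (I → V) → Prop) :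
    0 ≤ av (one P) := by
  refine av_nonneg fun x => ?_
  unfold one
  split_ifs <;> norm_num

/-- the event after the insertion of the edges of `E'` -/
def Ev {I V : Type} (L E : Finset (Finset I)) (c : Finset I → (I → V) → ℕ) (x0 : I → V)
    (C B : Finset I → (I → V) → Prop) (E' : Finset (Finset I)) (x : I → V) : Prop :=
  (∀ T ∈ L, c T x = c T x0) ∧ (∀ e ∈ E, ¬ C e x) ∧ ∀ e ∈ E', B e x

/-- the insertion of one edge -/
theorem seq_step (I V : Type) [Fintype I] [DecidableEq I] [Fintype V] [Nonempty V]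
    (L : Finset (Finset I)) (hinter : ∀ S ∈ L, ∀ T ∈ L, S ∩ T ∈ L)
    (E : Finset (Finset I)) (hE : E ⊆ L)
    (hmax : ∀ e ∈ E, ∀ T ∈ L, e ⊆ T → T = e)
    (c : Finset I → (I → V) → ℕ) (hc : ∀ U ∈ L, Dep U (c U))
    (hconst : ∀ e ∈ E, ∀ x y, c e x = c e y)
    (x0 : I → V) (C B : Finset I → (I → V) → Prop) (hC : ∀ e ∈ E, Dep e (C e))
    (hB : ∀ e ∈ E, Dep e (B e)) (ρ γ : ℝ) (hρ : 0 ≤ ρ) (hγ : 0 ≤ γ)
    (e : Finset I) (he : e ∈ E) (E' : Finset (Finset I)) (hE' : E' ⊆ E) (heE' : e ∉ E')
    (hst : ∀ s : Finset I → (I → V) → Prop, (∀ U ∈ below L e, Dep U (s U)) →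
      γ ≤ av (one (fun x => (∀ U ∈ below L e, c U x = c U x0) ∧ ¬ C e x ∧
        ∀ U ∈ below L e, s U x)) →
      ρ * av (one (fun x => (∀ U ∈ below L e, c U x = c U x0) ∧ ¬ C e x ∧
        ∀ U ∈ below L e, s U x)) ≤
      av (one (fun x => B e x ∧ (∀ U ∈ below L e, c U x = c U x0) ∧ ¬ C e x ∧
        ∀ U ∈ below L e, s U x))) :
    ρ * av (one (Ev L E c x0 C B E')) - ρ * γ ≤ av (one (Ev L E c x0 C B (insert e E'))) := by
  classical
  have hmem : ∀ T' ∈ L, T' ≠ e → T' ∩ e ∈ below L e := by
    intro T' hT' hn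
    rw [mem_below]
    refine ⟨hinter T' hT' e (hE he), inter_subset_right, ?_⟩
    intro h
    exact hn (hmax e he T' hT' fun i hi => (mem_inter.1 (h hi)).1)
  have hpw : ∀ (w : I → V) (T' U : Finset I), T' ∩ e = U → ∀ x y : I → V,
      (∀ i ∈ U, x i = y i) → ∀ i ∈ T', e.piecewise x w i = e.piecewise y w i := by
    intro w T' U hU x y hxy i hi
    by_cases hiT : i ∈ e
    · rw [piecewise_eq_of_mem _ _ _ hiT, piecewise_eq_of_mem _ _ _ hiT]
      exact hxy i (hU ▸ mem_inter.2 ⟨hi, hiT⟩)
    · rw [piecewise_eq_of_notMem _ _ _ hiT, piecewise_eq_of_notMem _ _ _ hiT]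
  have hin : ∀ (w x : I → V) (U : Finset I), U ⊆ e → ∀ i ∈ U, e.piecewise x w i = x i :=
    fun w x U hU i hi => piecewise_eq_of_mem _ _ _ (hU hi)
  -- the product sets
  let s : (I → V) → Finset I → (I → V) → Prop := fun w U x => ∀ T ∈ L, T ∩ e = U → T ≠ e →
    (c T (e.piecewise x w) = c T x0 ∧ (T ∈ E → ¬ C T (e.piecewise x w)) ∧
      (T ∈ E' → B T (e.piecewise x w)))
  have hsdep : ∀ w, ∀ U ∈ below L e, Dep U (s w U) := by
    intro w U _ x y hxy
    apply propext
    refine forall_congr' fun T => forall_congr' fun hT => forall_congr' fun hTU =>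
      forall_congr' fun _ => ?_
    have h1 := hpw w T U hTU x y hxy
    rw [hc T hT _ _ h1]
    refine and_congr Iff.rfl (and_congr ?_ ?_)
    · refine forall_congr' fun hTE => ?_
      rw [hC T hTE _ _ h1]
    · refine forall_congr' fun hTE => ?_
      rw [hB T (hE' hTE) _ _ h1]
  have hev : ∀ w x, Ev L E c x0 C B E' (e.piecewise x w) ↔
      ((∀ U ∈ below L e, c U x = c U x0) ∧ ¬ C e x ∧ ∀ U ∈ below L e, s w U x) := by
    intro w x
    constructor
    · rintro ⟨h1, h2, h3⟩
      refine ⟨fun U hU => ?_, ?_, fun U hU T hT _ _ => ⟨h1 T hT, fun hTE => h2 T hTE,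
        fun hTE => h3 T hTE⟩⟩
      · rw [mem_below] at hU
        rw [← h1 U hU.1, hc U hU.1 _ _ (hin w x U hU.2.1)]
      · rw [← hC e he _ _ (hin w x e (Subset.refl e))]
        exact h2 e he
    · rintro ⟨_, h2, h3⟩
      refine ⟨fun T hT => ?_, fun T hTE => ?_, fun T hTE => ?_⟩
      · by_cases hTe : T = e
        · subst hTe
          exact hconst T he _ _
        · exact (h3 (T ∩ e) (hmem T hT hTe) T hT rfl hTe).1
      · by_cases hTe : T = e
        · subst hTe
          rw [hC T he _ _ (hin w x T (Subset.refl T))]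
          exact h2
        · exact (h3 (T ∩ e) (hmem T (hE hTE) hTe) T (hE hTE) rfl hTe).2.1 hTE
      · have hTe : T ≠ e := fun h => heE' (h ▸ hTE)
        exact (h3 (T ∩ e) (hmem T (hE (hE' hTE)) hTe) T (hE (hE' hTE)) rfl hTe).2.2 hTE
  have hev2 : ∀ w x, Ev L E c x0 C B (insert e E') (e.piecewise x w) ↔
      (B e x ∧ (∀ U ∈ below L e, c U x = c U x0) ∧ ¬ C e x ∧ ∀ U ∈ below L e, s w U x) := by
    intro w x
    have h1 : Ev L E c x0 C B (insert e E') (e.piecewise x w) ↔
        (B e (e.piecewise x w) ∧ Ev L E c x0 C B E' (e.piecewise x w)) := by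
      unfold Ev
      constructor
      · rintro ⟨h1, h2, h3⟩
        exact ⟨h3 e (mem_insert_self e E'), h1, h2, fun t ht => h3 t (mem_insert_of_mem ht)⟩
      · rintro ⟨h0, h1, h2, h3⟩
        refine ⟨h1, h2, fun t ht => ?_⟩
        rcases mem_insert.1 ht with h | h
        · rw [h]
          exact h0
        · exact h3 t h
    rw [h1, hev w x, hB e he _ _ (hin w x e (Subset.refl e))]
  have hstep : ∀ w : I → V, ρ * av (fun x => one (Ev L E c x0 C B E') (e.piecewise x w)) - ρ * γ ≤
      av (fun x => one (Ev L E c x0 C B (insert e E')) (e.piecewise x w)) := by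
    intro w
    have h1 : av (fun x => one (Ev L E c x0 C B E') (e.piecewise x w)) =
        av (one (fun x => (∀ U ∈ below L e, c U x = c U x0) ∧ ¬ C e x ∧
          ∀ U ∈ below L e, s w U x)) :=
      av_congr fun x => one_iff
        (P := fun x => Ev L E c x0 C B E' (e.piecewise x w)) (hev w) x
    have h2 : av (fun x => one (Ev L E c x0 C B (insert e E')) (e.piecewise x w)) =
        av (one (fun x => B e x ∧ (∀ U ∈ below L e, c U x = c U x0) ∧ ¬ C e x ∧
          ∀ U ∈ below L e, s w U x)) :=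
      av_congr fun x => one_iff
        (P := fun x => Ev L E c x0 C B (insert e E') (e.piecewise x w)) (hev2 w) x
    rw [h1, h2]
    rcases le_or_gt γ (av (one (fun x => (∀ U ∈ below L e, c U x = c U x0) ∧ ¬ C e x ∧
          ∀ U ∈ below L e, s w U x))) with h | h
    · have h3 := hst (s w) (hsdep w) h
      have h4 := mul_nonneg hρ hγ
      linarith
    · have h3 := av_one_nonneg (fun x => B e x ∧ (∀ U ∈ below L e, c U x = c U x0) ∧ ¬ C e x ∧
          ∀ U ∈ below L e, s w U x)
      have h4 := mul_le_mul_of_nonneg_left (le_of_lt h) hρ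
      linarith
  have h5 := av_mono hstep
  rw [av_sub (fun w => ρ * av (fun x => one (Ev L E c x0 C B E') (e.piecewise x w)))
    (fun _ => ρ * γ), av_mul_left, av_const, ← av_mix, ← av_mix] at h5
  exact h5

theorem SEQ : ST_SEQ := by
  intro I V _ _ _ _ L rk hLat E hE hmax c hc hconst x0 C B hC hB ρ γ a hρ0 hρ1 hγ ha hγa hst hbase
  classical
  have key : ∀ E' : Finset (Finset I), E' ⊆ E → a * (ρ / 2) ^ E'.card ≤
      av (one (Ev L E c x0 C B E')) := by
    intro E'
    induction E' using Finset.induction_on with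
    | empty =>
      intro _
      rw [card_empty, pow_zero, mul_one]
      refine le_trans hbase (le_of_eq (av_congr fun x => one_iff (fun y => ?_) x))
      unfold Ev
      constructor
      · rintro ⟨h1, h2⟩
        exact ⟨h1, h2, fun t ht => absurd ht (notMem_empty t)⟩
      · rintro ⟨h1, h2, _⟩
        exact ⟨h1, h2⟩
    | insert e E' he ih =>
      intro hsub
      have heE : e ∈ E := hsub (mem_insert_self e E')
      have hE' : E' ⊆ E := fun t ht => hsub (mem_insert_of_mem ht)
      have h1 := ih hE'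
      have h2 := seq_step I V L hLat.inter E hE hmax c hc hconst x0 C B hC hB ρ γ hρ0 hγ e heE E'
        hE' he (hst e heE)
      refine le_trans ?_ h2
      have hcard : (insert e E').card = E'.card + 1 := card_insert_of_notMem he
      have hle : E'.card + 1 ≤ E.card := hcard ▸ card_le_card hsub
      have h3 : (ρ / 2) ^ E.card ≤ (ρ / 2) ^ (E'.card + 1) :=
        pow_le_pow_of_le_one (by linarith) (by linarith) hle
      have h4 : γ ≤ a * (ρ / 2) ^ (E'.card + 1) :=
        le_trans hγa (mul_le_mul_of_nonneg_left h3 ha)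
      have h5 : 0 ≤ a * (ρ / 2) ^ E'.card := mul_nonneg ha (pow_nonneg (by linarith) _)
      have h6 : a * (ρ / 2) ^ (E'.card + 1) = a * (ρ / 2) ^ E'.card * (ρ / 2) := by
        rw [pow_succ]
        ring
      have h7 : γ ≤ a * (ρ / 2) ^ E'.card * (1 / 2) := by
        rw [h6] at h4
        refine le_trans h4 (mul_le_mul_of_nonneg_left (by linarith) h5)
      rw [hcard, h6]
      have h8 : ρ * (a * (ρ / 2) ^ E'.card) ≤ ρ * av (one (Ev L E c x0 C B E')) :=
        mul_le_mul_of_nonneg_left h1 hρ0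
      have h9 : ρ * γ ≤ ρ * (a * (ρ / 2) ^ E'.card * (1 / 2)) :=
        mul_le_mul_of_nonneg_left h7 hρ0
      linarith
  refine le_trans (key E (Subset.refl E)) (av_mono fun x => ?_)
  by_cases h : Ev L E c x0 C B E x
  · have h1 : one (fun x => ∀ e ∈ E, B e x) x = 1 := by
      unfold one
      exact if_pos h.2.2
    rw [h1]
    unfold one
    rw [if_pos h]
  · have h1 : one (Ev L E c x0 C B E) x = 0 := by
      unfold one
      exact if_neg h
    rw [h1]
    unfold one
    split_ifs <;> norm_num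

end Pool.Helper96.RL
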